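import Mathlib
import Pool.Agent.Lib.helper24.Succ

set_option autoImplicit false

open Set Filter Topology TopologicalSpace
open Cardinal hiding univ
open Pool.Agent.Lib.helper24.Succ

namespace Pool.Agent.H.MP_590c78_gt

lemma cluster {Z : Type} [TopologicalSpace Z] [T1Space Z] {A : Set Z}
    (hA : ∀ B ⊆ A, B.Infinite → ∃ z, AccPt z (𝓟 B)) (a : ℕ → Z) (ha : ∀ n, a n ∈ A) :
    ∃ z, MapClusterPt z atTop a := by
  by_cases h : (range a).Finite
  · obtain ⟨z, -, hz⟩ := h.isCompact.exists_mapClusterPt (f := atTop) (u := a)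
      (by simp)
    exact ⟨z, hz⟩
  · obtain ⟨z, hz⟩ := hA _ (range_subset_iff.2 ha) h
    refine ⟨z, mapClusterPt_iff_frequently.2 fun U hU => ?_⟩
    rw [Nat.frequently_atTop_iff_infinite]
    have := (Set.Infinite.of_accPt (hz.nhds_inter hU)).preimage (f := a) inter_subset_right
    exact this.mono fun n hn => hn.1

theorem groth {Y : Type} [TopologicalSpace Y] [SeparableSpace Y]
    (S : Set {f : Y → ℝ // Continuous f}) (A : Set S)
    (hA : ∀ B ⊆ A, B.Infinite → ∃ z, AccPt z (𝓟 B)) : IsCompact (closure A) := by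
  let ι : S → Y → ℝ := fun f => f.1.1
  have hι : IsEmbedding ι := IsEmbedding.subtypeVal.comp IsEmbedding.subtypeVal
  have hb : ∀ y, ∃ M : ℕ, ∀ f ∈ A, |ι f y| ≤ M := by
    intro y
    by_contra h
    push Not at h
    choose a ha ha' using h
    obtain ⟨z, hz⟩ := cluster hA a ha
    have hc : Continuous fun f : S => |ι f y| := ((continuous_apply y).comp hι.continuous).abs
    have h1 := mapClusterPt_iff_frequently.1 hz _
      ((isOpen_lt hc continuous_const).mem_nhds (lt_add_one |ι z y|))
    obtain ⟨n, hn, hn'⟩ := (h1.and_eventually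
      (tendsto_natCast_atTop_atTop.eventually_ge_atTop (|ι z y| + 1))).exists
    exact lt_irrefl _ ((hn.trans_le hn').trans (ha' n))
  choose M hM using hb
  have hK : IsCompact (closure (ι '' A)) := by
    refine (isCompact_univ_pi fun y => isCompact_Icc (a := -(M y : ℝ)) (b := M y)).closure_of_subset ?_
    rintro _ ⟨f, hf, rfl⟩ y _
    exact abs_le.1 (hM y f hf)
  have key : ∀ g ∈ closure (ι '' A), ∀ T : Set Y, T.Countable → ∃ h : S, ∀ y ∈ T, ι h y = g y := by
    intro g hg T hT
    haveI := hT.to_subtype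
    have hr : Continuous fun (f : Y → ℝ) (y : T) => f y.1 :=
      continuous_pi fun y => continuous_apply _
    obtain ⟨u, hu, hu'⟩ := mem_closure_iff_seq_limit.1
      (image_closure_subset_closure_image hr ⟨g, hg, rfl⟩)
    choose b hb hb' using hu
    choose a ha ha' using hb
    obtain ⟨z, hz⟩ := cluster hA a ha
    have h1 := hz.continuousAt_comp (hr.comp hι.continuous).continuousAt
    have h2 : ((fun (f : Y → ℝ) (y : T) => f y.1) ∘ ι) ∘ a = u := funext fun n => by
      rw [← hb', ← ha']; rfl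
    rw [h2] at h1
    have h3 := eq_of_nhds_neBot (h1.clusterPt.mono hu')
    exact ⟨z, fun y hy => congrFun h3 ⟨y, hy⟩⟩
  rw [hι.closure_eq_preimage_closure_image, hι.isInducing.isCompact_preimage_iff]
  · exact hK
  · intro g hg
    obtain ⟨D, hD, hd⟩ := exists_countable_dense Y
    obtain ⟨h, hh⟩ := key g hg D hD
    refine ⟨h, funext fun y => ?_⟩
    obtain ⟨h', hh'⟩ := key g hg (insert y D) (hD.insert y)
    have : ι h = ι h' := Continuous.ext_on hd h.1.2 h'.1.2 fun x hx => by
      rw [hh x hx, hh' x (Or.inr hx)]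
    rw [this, hh' y (Or.inl rfl)]

abbrev V : Type := W ℵ₀

instance : SeparableSpace (V → ℝ) := by
  classical
  obtain ⟨j⟩ : Nonempty (V ↪ ℝ) := (le_def _ _).1 (by
    rw [mk_W, mk_real, succ_aleph0]; exact aleph_one_le_continuum)
  have hc : Continuous fun (f : C(ℝ, ℝ)) (a : V) => f (j a) :=
    continuous_pi fun a => continuous_eval_const _
  refine DenseRange.separableSpace (f := fun (f : C(ℝ, ℝ)) (a : V) => f (j a)) ?_ hc
  refine dense_iff_inter_open.2 fun U hU ⟨g, hg⟩ => ?_
  obtain ⟨I, u, hu, hIU⟩ := isOpen_pi_iff.1 hU g hg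
  refine ⟨_, hIU fun a ha => ?_, ⟨⟨fun x => (Lagrange.interpolate I j g).eval x,
    Polynomial.continuous _⟩, rfl⟩⟩
  show (Lagrange.interpolate I j g).eval (j a) ∈ u a
  rw [Lagrange.eval_interpolate_at_node g j.injective.injOn ha]
  exact (hu a ha).2

def L : Type := WithTop V

noncomputable instance : LinearOrder L := inferInstanceAs (LinearOrder (WithTop V))
instance : OrderTop L := inferInstanceAs (OrderTop (WithTop V))
def up (a : V) : L := (a : WithTop V)

lemma up_lt_top (a : V) : up a < ⊤ := WithTop.coe_lt_top a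
lemma up_lt {a b : V} : up a < up b ↔ a < b := WithTop.coe_lt_coe
lemma cases (x : L) : x = ⊤ ∨ ∃ a, x = up a := by
  rcases x with _ | a
  · exact Or.inl rfl
  · exact Or.inr ⟨a, rfl⟩

open Classical in
noncomputable def e (x : L) (a : V) : ℝ := if x < up a then 0 else if x = up a then 1 else 2

lemma e_one {x : L} {a : V} : e x a = 1 ↔ x = up a := by
  unfold e
  split_ifs with h1 h2
  · simp [h1.ne]
  · simp [h2]
  · simp [h2]

lemma e_gt {x : L} {a : V} : 1 < e x a ↔ up a < x := by
  unfold e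
  split_ifs with h1 h2
  · exact ⟨fun h => by norm_num at h, fun h => absurd h (lt_asymm h1)⟩
  · simp [h2]
  · simp [lt_of_le_of_ne (not_lt.1 h1) (Ne.symm h2)]

lemma e_inj : Function.Injective e := by
  intro x y h
  rcases cases x with rfl | ⟨a, rfl⟩
  · rcases cases y with rfl | ⟨b, rfl⟩
    · rfl
    · exact e_one.1 (by rw [h]; exact e_one.2 rfl)
  · exact (e_one.1 (by rw [← h]; exact e_one.2 rfl)).symm

noncomputable instance : TopologicalSpace L := induced e inferInstance

lemma emb : IsEmbedding e := ⟨⟨rfl⟩, e_inj⟩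

instance : T35Space L := emb.t35Space

lemma nhds_up (a : V) : ∀ᶠ x in 𝓝 (up a), x = up a := by
  have hc : Continuous fun x => e x a := (continuous_apply a).comp emb.continuous
  have : Ioo (0 : ℝ) 2 ∈ 𝓝 (e (up a) a) := Ioo_mem_nhds (by rw [e_one.2 rfl]; norm_num)
    (by rw [e_one.2 rfl]; norm_num)
  filter_upwards [hc.continuousAt.preimage_mem_nhds this] with x hx
  simp only [mem_preimage, e] at hx
  split_ifs at hx with h1 h2
  · simp at hx
  · exact h2
  · simp at hx

lemma nhds_top (a : V) : ∀ᶠ x in 𝓝 (⊤ : L), up a < x := by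
  have hc : Continuous fun x => e x a := (continuous_apply a).comp emb.continuous
  filter_upwards [(isOpen_lt continuous_const hc).mem_nhds (e_gt.2 (up_lt_top a))] with x hx
  exact e_gt.1 hx

lemma tendsto_top : Tendsto up atTop (𝓝 ⊤) := by
  rw [emb.tendsto_nhds_iff, tendsto_pi_nhds]
  intro a
  obtain ⟨b, hb⟩ := exists_gt le_rfl a
  refine tendsto_const_nhds.congr' ?_
  filter_upwards [eventually_ge_atTop b] with c hc
  have h1 : up a < up c := up_lt.2 (hb.trans_le hc)
  simp [e, h1.ne', h1.le, (up_lt_top a).ne', (up_lt_top a).le]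

def YS : Set ((V → ℝ) × ℝ) := {p | p.2 = 0 → p.1 ∈ range e}

instance : SeparableSpace YS := by
  have h1 : IsOpen {p : (V → ℝ) × ℝ | p.2 ≠ 0} := isOpen_ne_fun continuous_snd continuous_const
  have h2 : Dense {p : (V → ℝ) × ℝ | p.2 ≠ 0} := by
    have := dense_univ.prod (X := V → ℝ) (dense_compl_singleton (0 : ℝ))
    exact this.mono fun p hp => hp.2
  haveI := h1.isOpenEmbedding_subtypeVal.separableSpace
  have h3 : {p : (V → ℝ) × ℝ | p.2 ≠ 0} ⊆ YS := fun p hp h => (hp h).elim
  exact ((denseRange_inclusion_iff h3).2 fun p _ => h2 p).separableSpace (continuous_inclusion h3)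

noncomputable def i (x : L) : YS := ⟨(e x, 0), fun _ => ⟨x, rfl⟩⟩

lemma i_emb : IsClosedEmbedding i := by
  refine ⟨IsEmbedding.of_comp (g := fun p : YS => p.1.1) ?_ (by fun_prop) emb, ?_⟩
  · exact (emb.continuous.prodMk continuous_const).subtype_mk _
  · have : range i = {p : YS | p.1.2 = 0} := by
      ext p
      constructor
      · rintro ⟨x, rfl⟩; rfl
      · intro hp
        obtain ⟨x, hx⟩ := p.2 hp
        exact ⟨x, Subtype.ext (Prod.ext hx hp.symm)⟩
    rw [this]
    exact isClosed_eq (by fun_prop) continuous_const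

noncomputable def F : YS ⊕ L → YS := Sum.elim id i

lemma F_cont : Continuous F := continuous_id.sumElim i_emb.continuous
lemma F_closed : IsClosedMap F := isClosedMap_sumElim.2 ⟨IsClosedMap.id, i_emb.isClosedMap⟩
lemma F_surj : Function.Surjective F := fun y => ⟨Sum.inl y, rfl⟩
lemma F_fib (y : YS) : IsCompact (F ⁻¹' {y}) := by
  refine Set.Finite.isCompact ?_
  refine ((finite_singleton (Sum.inl y)).union
    (((finite_singleton y).preimage i_emb.injective.injOn).image Sum.inr)).subset ?_
  rintro (x | x) hx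
  · exact Or.inl (congrArg Sum.inl hx)
  · exact Or.inr ⟨x, hx, rfl⟩

instance : T35Space (YS ⊕ L) := by
  have : IsEmbedding (Sum.elim (fun y : YS => (y, (0 : ℝ))) fun x : L => (i x, (1 : ℝ))) := by
    refine IsEmbedding.sumElim_of_separatedNhds (isEmbedding_prodMkLeft _)
      ((isEmbedding_prodMkLeft _).comp i_emb.isEmbedding) ?_
    refine ⟨{p | p.2 < 1 / 2}, {p | 1 / 2 < p.2}, isOpen_lt continuous_snd continuous_const,
      isOpen_lt continuous_const continuous_snd, ?_, ?_, ?_⟩
    · rintro _ ⟨y, rfl⟩; norm_num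
    · rintro _ ⟨y, rfl⟩; norm_num
    · exact disjoint_left.2 fun p (h1 : p.2 < 1 / 2) (h2 : 1 / 2 < p.2) => lt_asymm h1 h2
  exact this.t35Space

def P (a : V) : Set (YS ⊕ L → ℝ) :=
  {f | (∀ x, f x ∈ Icc (0 : ℝ) 1) ∧ (∀ y, f (Sum.inl y) = 0) ∧ ∀ x, up a < x → f (Sum.inr x) = 0}

lemma P_cont {a : V} {f : YS ⊕ L → ℝ} (hf : f ∈ P a) : Continuous f := by
  refine continuous_sum_dom.2 ⟨continuous_const.congr fun y => (hf.2.1 y).symm,
    continuous_iff_continuousAt.2 fun x => tendsto_const_nhds.congr' ?_⟩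
  rcases cases x with rfl | ⟨b, rfl⟩
  · filter_upwards [nhds_top a] with x hx
    simp [hf.2.2 _ hx, hf.2.2 _ (up_lt_top a)]
  · filter_upwards [nhds_up b] with x hx
    rw [hx]

lemma P_compact (a : V) : IsCompact (P a) := by
  refine (isCompact_univ_pi fun _ => isCompact_Icc (a := (0 : ℝ)) (b := 1)).of_isClosed_subset ?_
    fun f hf x _ => hf.1 x
  simp only [P, ofPred_and, ofPred_forall]
  refine (isClosed_iInter fun x => isClosed_Icc.preimage (continuous_apply x)).inter
    ((isClosed_iInter fun y => isClosed_eq (continuous_apply _) continuous_const).inter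
      (isClosed_iInter fun x => isClosed_iInter fun _ =>
        isClosed_eq (continuous_apply _) continuous_const))

theorem not_weak : ¬ ∀ A : Set {f : YS ⊕ L → ℝ // Continuous f},
    (∀ B ⊆ A, B.Infinite → ∃ z, AccPt z (𝓟 B)) → IsCompact (closure A) := by
  classical
  intro h
  have hK := h {f | ∃ a, f.1 ∈ P a} (by
    intro B hB hinf
    obtain ⟨B', hB', hc, hinf'⟩ : ∃ B' ⊆ B, B'.Countable ∧ B'.Infinite :=
      ⟨range fun n => (hinf.natEmbedding B n).1, range_subset_iff.2 fun n => Subtype.prop _,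
        countable_range _, infinite_range_of_injective
          (Subtype.val_injective.comp (hinf.natEmbedding B).injective)⟩
    choose α hα using fun f : B' => hB (hB' f.2)
    haveI := hc.to_subtype
    obtain ⟨a, ha⟩ := bdd_range le_rfl (J := B') mk_le_aleph0 α
    have hc : IsCompact (Subtype.val ⁻¹' P a : Set {f : YS ⊕ L → ℝ // Continuous f}) :=
      (IsInducing.subtypeVal.isCompact_preimage_iff fun f hf => ⟨⟨f, P_cont hf⟩, rfl⟩).2
        (P_compact a)
    obtain ⟨z, -, hz⟩ := hinf'.exists_accPt_of_subset_isCompact hc fun f hf =>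
      ⟨(hα ⟨f, hf⟩).1, (hα ⟨f, hf⟩).2.1, fun x hx =>
        (hα ⟨f, hf⟩).2.2 x ((up_lt.2 (ha _)).trans hx)⟩
    exact ⟨z, hz.mono (principal_mono.2 hB')⟩)
  let g : V → YS ⊕ L → ℝ := fun a => Sum.elim 0 fun x => if up a < x then 0 else 1
  have hg : ∀ a, g a ∈ P a := fun a => ⟨by
    rintro (y | x)
    · simp [g]
    · simp only [g, Sum.elim_inr]
      split_ifs <;> simp, fun _ => rfl, fun x hx => if_pos hx⟩
  obtain ⟨z, -, hz⟩ := hK.exists_mapClusterPt (f := atTop)
    (u := fun a => (⟨g a, P_cont (hg a)⟩ : {f : YS ⊕ L → ℝ // Continuous f}))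
    (tendsto_principal.2 (Eventually.of_forall fun a => subset_closure ⟨a, hg a⟩))
  have key : ∀ x c, (∀ᶠ a in atTop, g a x = c) → z.1 x = c := fun x c hc => by
    have h1 := hz.continuousAt_comp ((continuous_apply x).comp continuous_subtype_val).continuousAt
    exact eq_of_nhds_neBot (h1.clusterPt.mono (tendsto_const_nhds.congr' (hc.mono fun a h => h.symm)))
  have h1 : z.1 (Sum.inr ⊤) = 0 := key _ _ (Eventually.of_forall fun a => (hg a).2.2 _ (up_lt_top a))
  have h2 : ∀ b, z.1 (Sum.inr (up b)) = 1 := fun b => key _ _ (by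
    filter_upwards [eventually_ge_atTop b] with a ha
    exact if_neg fun h => absurd (up_lt.1 h) (not_lt.2 ha))
  have h3 := ((z.2.comp continuous_inr).tendsto ⊤).comp tendsto_top
  have h4 : Tendsto (fun _ : V => (1 : ℝ)) atTop (𝓝 0) := by
    rw [← h1]
    exact h3.congr h2
  exact one_ne_zero (tendsto_nhds_unique tendsto_const_nhds h4)

end Pool.Agent.H.MP_590c78_gt
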